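import Pool.Agent.Helper36.KL.Goals

/-!
# Completeness and interpolation for the scale of Sobolev norms
-/

namespace Pool.Agent.Helper56.KL

open Set Filter Topology MeasureTheory Pool.Agent.Helper36.KL
open scoped ContDiff

lemma ip_D_D (k : ℕ) (u v : X) :
    ip (D k u) (D k v) = ∫ x, iteratedDeriv k u.1 x * iteratedDeriv k v.1 x := rfl

lemma BB_self (m : ℕ) (u : X) :
    BB m u u = ∑ k ∈ Finset.range (m + 1), ∫ x, iteratedDeriv k u.1 x ^ 2 := by
  rw [BB_apply]
  refine Finset.sum_congr rfl fun k _ => ?_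
  refine integral_congr_ae (ae_of_all _ fun x => ?_)
  simp only
  ring

lemma int_sq_nonneg (f : ℝ → ℝ) : 0 ≤ ∫ x, f x ^ 2 := integral_nonneg fun _ => sq_nonneg _

lemma le_BB {k m : ℕ} (h : k ≤ m) (u : X) : ∫ x, iteratedDeriv k u.1 x ^ 2 ≤ BB m u u := by
  rw [BB_self]
  exact Finset.single_le_sum (f := fun k => ∫ x, iteratedDeriv k u.1 x ^ 2)
    (fun i _ => int_sq_nonneg _) (Finset.mem_range.2 (by omega))

lemma BB_nonneg (m : ℕ) (u : X) : 0 ≤ BB m u u := by
  rw [BB_self]
  exact Finset.sum_nonneg fun i _ => int_sq_nonneg _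

/-- Sup bound for the derivatives. -/
lemma sup_D (k : ℕ) (u : X) (x : ℝ) : iteratedDeriv k u.1 x ^ 2 ≤ BB (k + 1) u u := by
  have h := sup_sq_le (iter_mem u.2 k) x
  rw [iter_iter, Nat.add_comm 1 k] at h
  refine h.trans ?_
  rw [BB_self, Finset.sum_range_succ, Finset.sum_range_succ]
  have h3 : 0 ≤ ∑ j ∈ Finset.range k, ∫ x, iteratedDeriv j u.1 x ^ 2 :=
    Finset.sum_nonneg fun i _ => int_sq_nonneg _
  linarith

lemma iter_sub (k : ℕ) (u v : X) (x : ℝ) :
    iteratedDeriv k (u - v).1 x = iteratedDeriv k u.1 x - iteratedDeriv k v.1 x := by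
  have h : (D k (u - v)).1 x = (D k u).1 x - (D k v).1 x := by
    rw [map_sub]; rfl
  exact h

/-- Fatou in the form needed. -/
lemma fatou {F : ℕ → ℝ → ℝ} {G : ℝ → ℝ} {δ : ℝ} (hF : ∀ l, Continuous (F l))
    (hG : Continuous G) (hi : ∀ l, Integrable (fun x => F l x ^ 2))
    (hb : ∀ l, ∫ x, F l x ^ 2 ≤ δ) (ht : ∀ x, Tendsto (fun l => F l x) atTop (𝓝 (G x))) :
    Integrable (fun x => G x ^ 2) ∧ ∫ x, G x ^ 2 ≤ δ := by
  have hδ : 0 ≤ δ := (int_sq_nonneg (F 0)).trans (hb 0)
  have h1 : ∫⁻ x, ENNReal.ofReal (G x ^ 2) ≤ ENNReal.ofReal δ := by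
    have h2 : ∀ x, liminf (fun l => ENNReal.ofReal (F l x ^ 2)) atTop =
        ENNReal.ofReal (G x ^ 2) := by
      intro x
      exact (ENNReal.tendsto_ofReal ((ht x).pow 2)).liminf_eq
    calc ∫⁻ x, ENNReal.ofReal (G x ^ 2)
        = ∫⁻ x, liminf (fun l => ENNReal.ofReal (F l x ^ 2)) atTop := by
          refine lintegral_congr fun x => ?_
          rw [h2]
      _ ≤ liminf (fun l => ∫⁻ x, ENNReal.ofReal (F l x ^ 2)) atTop := by
          apply lintegral_liminf_le
          intro l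
          exact ENNReal.measurable_ofReal.comp ((hF l).pow 2).measurable
      _ ≤ liminf (fun _ : ℕ => ENNReal.ofReal δ) atTop := by
          refine liminf_le_liminf (Eventually.of_forall fun l => ?_)
          rw [← ofReal_integral_eq_lintegral_ofReal (hi l) (ae_of_all _ fun x => sq_nonneg _)]
          exact ENNReal.ofReal_le_ofReal (hb l)
      _ = ENNReal.ofReal δ := liminf_const _
  have hm : AEStronglyMeasurable (fun x => G x ^ 2) volume := (hG.pow 2).aestronglyMeasurable
  have hint : Integrable (fun x => G x ^ 2) := by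
    refine ⟨hm, ?_⟩
    rw [hasFiniteIntegral_iff_ofReal (ae_of_all _ fun x => sq_nonneg _)]
    exact lt_of_le_of_lt h1 ENNReal.ofReal_lt_top
  refine ⟨hint, ?_⟩
  rw [integral_eq_lintegral_of_nonneg_ae (ae_of_all _ fun x => sq_nonneg _) hm]
  exact ENNReal.toReal_le_of_le_ofReal hδ h1

theorem complete (x : ℕ → X)
    (hx : ∀ m, ∀ δ > 0, ∃ n0, ∀ n ≥ n0, ∀ k ≥ n0, BB m (x n - x k) (x n - x k) ≤ δ) :
    ∃ y, ∀ m, Tendsto (fun n => BB m (x n - y) (x n - y)) atTop (𝓝 0) := by
  -- uniform Cauchy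
  have hU : ∀ k, ∀ ε > 0, ∃ n0, ∀ n ≥ n0, ∀ l ≥ n0, ∀ t,
      |iteratedDeriv k (x n).1 t - iteratedDeriv k (x l).1 t| < ε := by
    intro k ε hε
    obtain ⟨n0, h0⟩ := hx (k + 1) ((ε / 2) ^ 2) (by positivity)
    refine ⟨n0, fun n hn l hl t => ?_⟩
    have h1 := (sup_D k (x n - x l) t).trans (h0 n hn l hl)
    rw [iter_sub] at h1
    have h2 := abs_le_of_sq_le_sq h1 (by positivity)
    linarith
  have hlim : ∀ k t, ∃ y, Tendsto (fun n => iteratedDeriv k (x n).1 t) atTop (𝓝 y) := by
    intro k t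
    apply cauchySeq_tendsto_of_complete
    rw [Metric.cauchySeq_iff]
    intro ε hε
    obtain ⟨n0, h0⟩ := hU k ε hε
    exact ⟨n0, fun n hn l hl => by rw [Real.dist_eq]; exact h0 n hn l hl t⟩
  choose g hg using hlim
  have hunif : ∀ k, TendstoUniformly (fun n t => iteratedDeriv k (x n).1 t) (g k) atTop := by
    intro k
    rw [← tendstoUniformlyOn_univ]
    apply UniformCauchySeqOn.tendstoUniformlyOn_of_tendsto _ (fun t _ => hg k t)
    rw [Metric.uniformCauchySeqOn_iff]
    intro ε hε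
    obtain ⟨n0, h0⟩ := hU k ε hε
    exact ⟨n0, fun n hn l hl t _ => by rw [Real.dist_eq]; exact h0 n hn l hl t⟩
  have hder : ∀ k t, HasDerivAt (g k) (g (k + 1) t) t := by
    intro k t
    exact hasDerivAt_of_tendstoUniformly (hunif (k + 1))
      (Eventually.of_forall fun n s => hasDerivAt_iter (x n).2.1 k s) (fun s => hg k s) t
  have hiter : ∀ k, iteratedDeriv k (g 0) = g k := by
    intro k
    induction k with
    | zero => simp
    | succ k ih =>
      rw [iteratedDeriv_succ, ih]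
      funext t
      exact (hder k t).deriv
  have hcd : ContDiff ℝ ∞ (g 0) := by
    apply contDiff_of_differentiable_iteratedDeriv
    intro m _
    rw [hiter m]
    exact fun t => (hder m t).differentiableAt
  have hgc : ∀ k, Continuous (g k) := fun k =>
    continuous_iff_continuousAt.2 fun t => (hder k t).continuousAt
  have hfc : ∀ k n, Continuous (iteratedDeriv k (x n).1) := fun k n =>
    (contDiff_iter (x n).2.1 k).continuous
  -- Fatou
  have hF : ∀ k, ∀ δ > 0, ∃ n0, ∀ n ≥ n0,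
      Integrable (fun t => (iteratedDeriv k (x n).1 t - g k t) ^ 2) ∧
      ∫ t, (iteratedDeriv k (x n).1 t - g k t) ^ 2 ≤ δ := by
    intro k δ hδ
    obtain ⟨n0, h0⟩ := hx k δ hδ
    refine ⟨n0, fun n hn => ?_⟩
    refine fatou (F := fun l t => iteratedDeriv k (x n).1 t - iteratedDeriv k (x (l + n0)).1 t)
      (fun l => (hfc k n).sub (hfc k _)) ((hfc k n).sub (hgc k)) ?_ ?_ ?_
    · intro l
      have h1 := int_sq (iter_mem (x n - x (l + n0)).2 k)
      refine h1.congr (ae_of_all _ fun t => ?_)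
      simp only [iter_sub]
    · intro l
      have h1 := (le_BB (le_refl k) (x n - x (l + n0))).trans (h0 n hn (l + n0) (by omega))
      simpa only [iter_sub] using h1
    · intro t
      exact tendsto_const_nhds.sub ((hg k t).comp (tendsto_add_atTop_nat n0))
  have hmem : ∀ k, MemLp (g k) 2 volume := by
    intro k
    obtain ⟨n0, h0⟩ := hF k 1 one_pos
    have h1 := (h0 n0 le_rfl).1
    have h2 : MemLp (fun t => iteratedDeriv k (x n0).1 t - g k t) 2 volume :=
      (memLp_two_iff_integrable_sq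
        ((hfc k n0).sub (hgc k)).aestronglyMeasurable).2 h1
    have h3 := ((x n0).2.2 k).sub h2
    have h4 : iteratedDeriv k (x n0).1 - (fun t => iteratedDeriv k (x n0).1 t - g k t) = g k := by
      funext t
      simp
    rwa [h4] at h3
  let y : X := ⟨g 0, hcd, fun k => by rw [hiter k]; exact hmem k⟩
  refine ⟨y, fun m => ?_⟩
  have h1 : ∀ k, Tendsto (fun n => ∫ t, iteratedDeriv k (x n - y).1 t ^ 2) atTop (𝓝 0) := by
    intro k
    rw [Metric.tendsto_atTop]
    intro ε hε
    obtain ⟨n0, h0⟩ := hF k (ε / 2) (by positivity)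
    refine ⟨n0, fun n hn => ?_⟩
    have h2 := (h0 n hn).2
    have h3 : ∀ t, iteratedDeriv k (x n - y).1 t = iteratedDeriv k (x n).1 t - g k t := by
      intro t
      rw [iter_sub]
      have : iteratedDeriv k y.1 = g k := hiter k
      rw [this]
    simp only [h3]
    rw [Real.dist_eq, sub_zero, abs_of_nonneg (int_sq_nonneg _)]
    linarith
  have h2 : Tendsto (fun n => ∑ k ∈ Finset.range (m + 1),
      ∫ t, iteratedDeriv k (x n - y).1 t ^ 2) atTop (𝓝 0) := by
    have := tendsto_finsetSum (Finset.range (m + 1)) (fun k _ => h1 k)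
    simpa using this
  refine h2.congr fun n => ?_
  rw [BB_self]

/-- Cauchy-Schwarz. -/
lemma ip_sq_le (u v : X) : ip u v ^ 2 ≤ ip u u * ip v v := by
  have hnn : ∀ w : X, 0 ≤ ip w w := by
    intro w
    rw [ip_apply]
    exact integral_nonneg fun t => mul_self_nonneg _
  have hsymm : ip v u = ip u v := by
    rw [ip_apply, ip_apply]
    refine integral_congr_ae (ae_of_all _ fun t => ?_)
    simp only
    ring
  have h : ∀ t : ℝ, 0 ≤ ip v v * (t * t) + 2 * ip u v * t + ip u u := by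
    intro t
    have h1 := hnn (u + t • v)
    simp only [map_add, map_smul, LinearMap.add_apply, LinearMap.smul_apply, smul_eq_mul,
      hsymm] at h1
    nlinarith
  have h2 := discrim_le_zero h
  rw [discrim] at h2
  nlinarith

/-- moving derivatives -/
lemma move (u : X) (k b : ℕ) :
    |∫ x, iteratedDeriv k u.1 x * iteratedDeriv b u.1 x| =
      |∫ x, u.1 x * iteratedDeriv (k + b) u.1 x| := by
  induction k generalizing b with
  | zero => simp
  | succ k ih =>
    have h := ibp (iter_mem u.2 k) (iter_mem u.2 b)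
    rw [iter_iter, iter_iter, Nat.add_comm 1 k, Nat.add_comm 1 b] at h
    rw [h, abs_neg, ih (b + 1)]
    congr 3
    funext x
    rw [show k + (b + 1) = k + 1 + b by omega]

theorem interp (m : ℕ) : ∃ m' C, ∀ x : X, (BB m x x) ^ 2 ≤ C * BB 0 x x * BB m' x x := by
  refine ⟨2 * m, ((m : ℝ) + 1) ^ 2, fun u => ?_⟩
  have h0 : ∫ x, u.1 x * u.1 x = BB 0 u u := by
    rw [BB_apply]
    simp
  have h1 : ∀ k ∈ Finset.range (m + 1),
      (∫ x, iteratedDeriv k u.1 x ^ 2) ^ 2 ≤ BB 0 u u * BB (2 * m) u u := by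
    intro k hk
    have hk' : k ≤ m := by
      have := Finset.mem_range.1 hk
      omega
    have e1 : (∫ x, iteratedDeriv k u.1 x ^ 2) =
        ∫ x, iteratedDeriv k u.1 x * iteratedDeriv k u.1 x := by
      refine integral_congr_ae (ae_of_all _ fun t => ?_)
      simp only
      ring
    rw [e1, ← sq_abs, move u k k, sq_abs]
    have e2 := ip_sq_le u (D (k + k) u)
    have e3 : ip u (D (k + k) u) = ∫ x, u.1 x * iteratedDeriv (k + k) u.1 x := rfl
    have e4 : ip u u = BB 0 u u := by rw [← h0]; rfl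
    have e5 : ip (D (k + k) u) (D (k + k) u) ≤ BB (2 * m) u u := by
      rw [ip_D_D]
      have := le_BB (show k + k ≤ 2 * m by omega) u
      refine le_trans (le_of_eq ?_) this
      refine integral_congr_ae (ae_of_all _ fun t => ?_)
      simp only
      ring
    rw [e3, e4] at e2
    exact e2.trans (mul_le_mul_of_nonneg_left e5 (BB_nonneg 0 u))
  have h2 := sq_sum_le_card_mul_sum_sq (s := Finset.range (m + 1))
    (f := fun k => ∫ x, iteratedDeriv k u.1 x ^ 2)
  rw [← BB_self] at h2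
  have h3 := Finset.sum_le_card_nsmul (Finset.range (m + 1))
    (fun k => (∫ x, iteratedDeriv k u.1 x ^ 2) ^ 2) _ h1
  rw [Finset.card_range, nsmul_eq_mul] at h3
  rw [Finset.card_range] at h2
  push_cast at h2 h3
  have h4 : 0 ≤ (m : ℝ) + 1 := by positivity
  calc BB m u u ^ 2 ≤ ((m : ℝ) + 1) *
        ∑ k ∈ Finset.range (m + 1), (∫ x, iteratedDeriv k u.1 x ^ 2) ^ 2 := h2
    _ ≤ ((m : ℝ) + 1) * (((m : ℝ) + 1) * (BB 0 u u * BB (2 * m) u u)) :=
        mul_le_mul_of_nonneg_left h3 h4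
    _ = ((m : ℝ) + 1) ^ 2 * BB 0 u u * BB (2 * m) u u := by ring

theorem cmp : G_CMP := ⟨complete, interp⟩

end Pool.Agent.Helper56.KL
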